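import Pool.Agent.H94.PI.Conv

/-! # PI.Bdd : every set occurs in an infinite commutative group of bounded exponent

(1) `dsum`: restricted products.  (2) one missing number `m`, in `T →₀ ZMod p` with
`T = ℕ ⊕ (ℕ × ℕ)`: `A` = union of the `m + 1` lines `F_p e_l`, `c = ∑ e_l`, `v_n = c - ∑_{l < m-1} u_{n,l}`.
(3) a group with infinite `p`-torsion contains `ℕ →₀ (T →₀ ZMod p)`. -/

set_option autoImplicit false

universe u v

namespace Pool.Agent.H94.PI

open Finset

section

variable {E : Type u} [AddCommGroup E]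

/-- The restricted product of the sets `A m`, `m ∈ J`. -/
def rp (J : Set ℕ) (A : ℕ → Set E) : Set (ℕ →₀ E) :=
  {f | (∀ m ∈ J, f m ∈ A m) ∧ ∀ m ∉ J, f m = 0}

theorem hs_rp {J : Set ℕ} {A : ℕ → Set E} (h0 : ∀ m, (0 : E) ∈ A m) (h : ℕ) :
    hs (rp J A) h = {f | (∀ m ∈ J, f m ∈ hs (A m) h) ∧ ∀ m ∉ J, f m = 0} := by
  classical
  ext f
  constructor
  · rintro ⟨g, hg, rfl⟩
    refine ⟨fun m hm => ⟨fun k => g k m, fun k => (hg k).1 m hm, ?_⟩, fun m hm => ?_⟩
    · rw [Finsupp.finsetSum_apply]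
    · rw [Finsupp.finsetSum_apply]
      exact sum_eq_zero fun k _ => (hg k).2 m hm
  · rintro ⟨h1, h2⟩
    have hex : ∀ m, ∃ r : Fin h → E, (∀ k, m ∈ J → r k ∈ A m) ∧ (f m = 0 → ∀ k, r k = 0) ∧
        ∑ k, r k = f m := by
      intro m
      by_cases hz : f m = 0
      · exact ⟨fun _ => 0, fun _ _ => h0 m, fun _ _ => rfl, by rw [hz]; simp⟩
      · by_cases hm : m ∈ J
        · obtain ⟨r, hr, hrs⟩ := h1 m hm
          exact ⟨r, fun k _ => hr k, fun hc => absurd hc hz, hrs⟩
        · exact absurd (h2 m hm) hz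
    choose r hr hr0 hrs using hex
    refine ⟨fun k => Finsupp.onFinset f.support (fun m => r m k) ?_, fun k => ⟨?_, ?_⟩, ?_⟩
    · intro m hne
      rw [Finsupp.mem_support_iff]
      exact fun hc => hne (hr0 m hc k)
    · intro m hm
      exact hr m k hm
    · intro m hm
      exact hr0 m (h2 m hm) k
    · ext m
      rw [Finsupp.finsetSum_apply]
      exact hrs m

theorem iInter_rp {J : Set ℕ} {A : ℕ → ℕ → Set E} :
    (⋂ q, rp J (A q)) = rp J (fun m => ⋂ q, A q m) := by
  ext f
  simp only [Set.mem_iInter, rp, Set.mem_ofPred_eq]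
  constructor
  · intro hf
    exact ⟨fun m hm q => (hf q).1 m hm, (hf 0).2⟩
  · rintro ⟨h1, h2⟩ q
    exact ⟨fun m hm => h1 m hm q, h2⟩

theorem dsum_iff {J : Set ℕ} {A : ℕ → ℕ → Set E} (h0 : ∀ q m, (0 : E) ∈ A q m) (h : ℕ) :
    hs (⋂ q, rp J (A q)) h = (⋂ q, hs (rp J (A q)) h) ↔
      ∀ m ∈ J, hs (⋂ q, A q m) h = ⋂ q, hs (A q m) h := by
  classical
  rw [iInter_rp, hs_rp (fun m => Set.mem_iInter.2 fun q => h0 q m)]
  simp only [hs_rp (h0 _)]
  constructor
  · intro heq m hm
    apply Set.Subset.antisymm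
    · rintro x ⟨f, hf, rfl⟩
      exact Set.mem_iInter.2 fun q => ⟨f, fun i => Set.mem_iInter.1 (hf i) q, rfl⟩
    · intro x hx
      have h1 : Finsupp.single m x ∈ ⋂ q, {f : ℕ →₀ E | (∀ m ∈ J, f m ∈ hs (A q m) h) ∧
          ∀ m ∉ J, f m = 0} := by
        refine Set.mem_iInter.2 fun q => ⟨fun m' hm' => ?_, fun m' hm' => ?_⟩
        · rw [Finsupp.single_apply]
          split_ifs with hmm
          · subst hmm
            exact Set.mem_iInter.1 hx q
          · exact ⟨fun _ => 0, fun _ => h0 q m', by simp⟩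
        · rw [Finsupp.single_apply, if_neg]
          rintro rfl
          exact hm' hm
      rw [← heq] at h1
      have h2 := h1.1 m hm
      rwa [Finsupp.single_eq_same] at h2
  · intro hall
    ext f
    simp only [Set.mem_iInter, Set.mem_ofPred_eq]
    constructor
    · rintro ⟨h1, h2⟩ q
      refine ⟨fun m hm => ?_, h2⟩
      have h3 := h1 m hm
      rw [hall m hm] at h3
      exact Set.mem_iInter.1 h3 q
    · intro hf
      refine ⟨fun m hm => ?_, (hf 0).2⟩
      rw [hall m hm]
      exact Set.mem_iInter.2 fun q => (hf q).1 m hm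

end

section

variable (p : ℕ)

/-- The index set: lines, and auxiliary directions. -/
abbrev T : Type := ℕ ⊕ (ℕ × ℕ)

/-- The union of the `m + 1` lines. -/
def Ln (m : ℕ) : Set (T →₀ ZMod p) := {f | ∃ l ≤ m, ∃ a : ZMod p, f = Finsupp.single (Sum.inl l) a}

/-- The point outside the `m`-fold sum. -/
noncomputable def cc (m : ℕ) : T →₀ ZMod p := ∑ l ∈ range (m + 1), Finsupp.single (Sum.inl l) 1

/-- The auxiliary elements. -/
noncomputable def uu (n l : ℕ) : T →₀ ZMod p := Finsupp.single (Sum.inr (n, l)) 1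

/-- The elements `v_n`. -/
noncomputable def vv (m n : ℕ) : T →₀ ZMod p := cc p m - ∑ l ∈ range (m - 1), uu p n l

/-- The sequence for one missing number `m`. -/
def Bq (m q : ℕ) : Set (T →₀ ZMod p) :=
  {f | f ∈ Ln p m ∨ (∃ n l, q ≤ n ∧ l + 1 < m ∧ f = uu p n l) ∨ ∃ n, q ≤ n ∧ f = vv p m n}

variable {p}

theorem uu_inl (n l k : ℕ) : uu p n l (Sum.inl k) = 0 := by
  unfold uu
  rw [Finsupp.single_apply, if_neg (by simp)]

theorem uu_inr (n l n' l' : ℕ) : uu p n l (Sum.inr (n', l')) = if n = n' ∧ l = l' then 1 else 0 := by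
  unfold uu
  rw [Finsupp.single_apply]
  simp only [Sum.inr.injEq, Prod.mk.injEq]

theorem cc_inl (m k : ℕ) : cc p m (Sum.inl k) = if k ≤ m then 1 else 0 := by
  unfold cc
  rw [Finsupp.finsetSum_apply]
  simp only [Finsupp.single_apply, Sum.inl.injEq]
  rw [sum_ite_eq' (range (m + 1)) k]
  simp only [mem_range, Nat.lt_succ_iff]

theorem cc_inr (m : ℕ) (x : ℕ × ℕ) : cc p m (Sum.inr x) = 0 := by
  unfold cc
  rw [Finsupp.finsetSum_apply]
  exact sum_eq_zero fun l _ => by rw [Finsupp.single_apply, if_neg (by simp)]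

theorem vv_inl (m n k : ℕ) : vv p m n (Sum.inl k) = if k ≤ m then 1 else 0 := by
  unfold vv
  rw [Finsupp.sub_apply, cc_inl, Finsupp.finsetSum_apply, sum_eq_zero fun l _ => uu_inl n l k,
    sub_zero]

theorem vv_inr (m n n' l' : ℕ) : vv p m n (Sum.inr (n', l')) =
    if n = n' ∧ l' + 1 < m then -1 else 0 := by
  unfold vv
  rw [Finsupp.sub_apply, cc_inr, Finsupp.finsetSum_apply, zero_sub]
  simp only [uu_inr]
  by_cases h : n = n' ∧ l' + 1 < m
  · rw [if_pos h]
    congr 1
    obtain ⟨rfl, h2⟩ := h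
    simp only [true_and]
    rw [sum_ite_eq' (range (m - 1)) l' (fun _ => (1 : ZMod p)), if_pos (mem_range.2 (by omega))]
  · rw [if_neg h, neg_eq_zero]
    refine sum_eq_zero fun l hl => ?_
    rw [if_neg]
    rintro ⟨rfl, rfl⟩
    exact h ⟨rfl, by have := mem_range.1 hl; omega⟩

theorem Ln_inr {m : ℕ} {f : T →₀ ZMod p} (hf : f ∈ Ln p m) (x : ℕ × ℕ) : f (Sum.inr x) = 0 := by
  obtain ⟨l, -, a, rfl⟩ := hf
  rw [Finsupp.single_apply, if_neg (by simp)]

theorem Ln_sub (m q : ℕ) : Ln p m ⊆ Bq p m q := fun _ h => Or.inl h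

theorem Ln_zero (m : ℕ) : (0 : T →₀ ZMod p) ∈ Ln p m := ⟨0, Nat.zero_le _, 0, by simp⟩

theorem Bq_anti {m q q' : ℕ} (h : q ≤ q') : Bq p m q' ⊆ Bq p m q := by
  rintro f (h1 | ⟨n, l, hn, hl, rfl⟩ | ⟨n, hn, rfl⟩)
  · exact Or.inl h1
  · exact Or.inr (Or.inl ⟨n, l, h.trans hn, hl, rfl⟩)
  · exact Or.inr (Or.inr ⟨n, h.trans hn, rfl⟩)

theorem Bq_low {m q : ℕ} {f : T →₀ ZMod p} (hf : f ∈ Bq p m q) {n : ℕ} (hn : n < q) (l : ℕ) :
    f (Sum.inr (n, l)) = 0 := by
  rcases hf with h1 | ⟨n', l', hn', hl, rfl⟩ | ⟨n', hn', rfl⟩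
  · exact Ln_inr h1 _
  · rw [uu_inr, if_neg (by omega)]
  · rw [vv_inr, if_neg (by omega)]

theorem Bq_big {m q : ℕ} {f : T →₀ ZMod p} (hf : f ∈ Bq p m q) {l : ℕ} (hl : m < l) :
    f (Sum.inl l) = 0 := by
  rcases hf with ⟨l', h1, a, rfl⟩ | ⟨n', l', hn', hl, rfl⟩ | ⟨n', hn', rfl⟩
  · rw [Finsupp.single_apply, if_neg]
    intro hc
    have := Sum.inl.inj hc
    omega
  · exact uu_inl _ _ _
  · rw [vv_inl, if_neg (by omega)]

/-- Everything supported on the lines is a sum of `m + 1` elements. -/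
theorem mem_hs_Ln {m h : ℕ} (hmh : m + 1 ≤ h) {f : T →₀ ZMod p} (h1 : ∀ x, f (Sum.inr x) = 0)
    (h2 : ∀ l, m < l → f (Sum.inl l) = 0) : f ∈ hs (Ln p m) h := by
  classical
  refine ⟨fun k => if (k : ℕ) ≤ m then Finsupp.single (Sum.inl (k : ℕ)) (f (Sum.inl (k : ℕ))) else 0,
    fun k => ?_, ?_⟩
  · dsimp only
    split_ifs with hk
    · exact ⟨k, hk, _, rfl⟩
    · exact Ln_zero m
  · rw [Fin.sum_univ_eq_sum_range (fun k => if k ≤ m then
      Finsupp.single (Sum.inl k : T) (f (Sum.inl k)) else 0) h]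
    ext x
    rw [Finsupp.finsetSum_apply]
    rcases x with l | x
    · rw [sum_eq_single l]
      · by_cases hl : l ≤ m
        · rw [if_pos hl, Finsupp.single_eq_same]
        · rw [if_neg hl, h2 l (by omega)]
          rfl
      · intro k _ hk
        split_ifs
        · rw [Finsupp.single_apply, if_neg]
          intro hc
          exact hk (Sum.inl.inj hc)
        · rfl
      · intro hl
        have : m < l := by
          rw [mem_range] at hl
          omega
        rw [if_neg (by omega)]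
        rfl
    · rw [h1]
      refine sum_eq_zero fun k _ => ?_
      split_ifs
      · rw [Finsupp.single_apply, if_neg (by simp)]
      · rfl

theorem uu_inj {n l n' l' : ℕ} [Fact p.Prime] (h : uu p n l = uu p n' l') : n = n' ∧ l = l' := by
  have h1 := DFunLike.congr_fun h (Sum.inr (n, l))
  rw [uu_inr, uu_inr, if_pos ⟨rfl, rfl⟩] at h1
  by_contra hc
  rw [if_neg (fun hh => hc ⟨hh.1.symm, hh.2.symm⟩)] at h1
  exact one_ne_zero h1

theorem vv_inj {m n n' : ℕ} [Fact p.Prime] (hm : 2 ≤ m) (h : vv p m n = vv p m n') : n = n' := by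
  have h1 := DFunLike.congr_fun h (Sum.inr (n, 0))
  rw [vv_inr, vv_inr, if_pos ⟨rfl, by omega⟩] at h1
  by_contra hc
  rw [if_neg (fun hh => hc hh.1.symm)] at h1
  exact one_ne_zero (neg_eq_zero.1 h1)

theorem uu_ne_vv {m n l n' : ℕ} [Fact p.Prime] : uu p n l ≠ vv p m n' := by
  intro h
  have h1 := DFunLike.congr_fun h (Sum.inl 0)
  rw [uu_inl, vv_inl, if_pos (Nat.zero_le _)] at h1
  exact one_ne_zero h1.symm

theorem few [Fact p.Prime] {m : ℕ} (hm : 2 ≤ m) {h : ℕ} (hh : h < m) {q : ℕ}
    {g : Fin h → (T →₀ ZMod p)} (hg : ∀ k, g k ∈ Bq p m q)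
    (h1 : ∀ x, (∑ k, g k) (Sum.inr x) = 0) : ∑ k, g k ∈ hs (Ln p m) h := by
  classical
  -- the number of `v_n` vanishes modulo `p`
  have hval : ∀ k n l, l + 1 < m → g k (Sum.inr (n, l)) =
      (if g k = uu p n l then 1 else 0) - (if g k = vv p m n then 1 else 0) := by
    intro k n l hl
    rcases hg k with h2 | ⟨n', l', hn', hl', h2⟩ | ⟨n', hn', h2⟩
    · have h3 := Ln_inr h2 (n, l)
      rw [h3, if_neg, if_neg, sub_zero]
      · intro hc
        rw [hc, vv_inr, if_pos ⟨rfl, hl⟩] at h3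
        exact one_ne_zero (neg_eq_zero.1 h3)
      · intro hc
        rw [hc, uu_inr, if_pos ⟨rfl, rfl⟩] at h3
        exact one_ne_zero h3
    · rw [h2, uu_inr, if_neg uu_ne_vv, sub_zero]
      by_cases hc : n' = n ∧ l' = l
      · rw [if_pos hc, hc.1, hc.2, if_pos rfl]
      · rw [if_neg hc, if_neg]
        intro hcc
        exact hc (uu_inj hcc)
    · rw [h2, vv_inr, if_neg (Ne.symm uu_ne_vv), zero_sub]
      by_cases hc : n' = n
      · rw [if_pos ⟨hc, hl⟩, hc, if_pos rfl]
      · rw [if_neg (fun hcc => hc hcc.1), if_neg, neg_zero]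
        intro hcc
        exact hc (vv_inj hm hcc)
  have hV : ∀ n, ∑ k, (if g k = vv p m n then (1 : ZMod p) else 0) = 0 := by
    intro n
    by_contra hne
    have hU : ∀ l, l + 1 < m → ∃ k, g k = uu p n l := by
      intro l hl
      have h2 := h1 (n, l)
      rw [Finsupp.finsetSum_apply, sum_congr rfl fun k _ => hval k n l hl, sum_sub_distrib,
        sub_eq_zero] at h2
      by_contra hno
      push Not at hno
      rw [sum_eq_zero fun k _ => if_neg (hno k)] at h2
      exact hne h2.symm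
    have hV' : ∃ k, g k = vv p m n := by
      by_contra hno
      push Not at hno
      exact hne (sum_eq_zero fun k _ => if_neg (hno k))
    have hall : ∀ l, ∃ k : Fin h, l < m → g k = if l + 1 < m then uu p n l else vv p m n := by
      intro l
      by_cases hl : l + 1 < m
      · obtain ⟨k, hk⟩ := hU l hl
        exact ⟨k, fun _ => by rw [if_pos hl, hk]⟩
      · obtain ⟨k, hk⟩ := hV'
        exact ⟨k, fun _ => by rw [if_neg hl, hk]⟩
    choose s hs' using hall
    have hcard := card_le_card_of_injOn (s := range m) (t := (univ : Finset (Fin h))) s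
      (fun _ _ => by simp) (by
        intro a ha b hb hab
        have ha' : a < m := by simpa using ha
        have hb' : b < m := by simpa using hb
        have h2 := hs' a ha'
        have h3 := hs' b hb'
        rw [hab, h3] at h2
        by_cases c1 : a + 1 < m
        · by_cases c2 : b + 1 < m
          · rw [if_pos c1, if_pos c2] at h2
            exact (uu_inj h2).2.symm
          · rw [if_pos c1, if_neg c2] at h2
            exact absurd h2.symm uu_ne_vv
        · by_cases c2 : b + 1 < m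
          · rw [if_neg c1, if_pos c2] at h2
            exact absurd h2 uu_ne_vv
          · omega)
    rw [card_range, card_univ, Fintype.card_fin] at hcard
    omega
  -- a bound for the indices
  obtain ⟨N, hN⟩ : ∃ N : ℕ, ∀ k n, g k = vv p m n → n < N := by
    have hex : ∀ k, ∃ N : ℕ, ∀ n, g k = vv p m n → n < N := by
      intro k
      by_cases hk : ∃ n, g k = vv p m n
      · obtain ⟨n, hn⟩ := hk
        exact ⟨n + 1, fun n' hn' => by rw [hn] at hn'; have := vv_inj hm hn'; omega⟩
      · push Not at hk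
        exact ⟨0, fun n hn => absurd hn (hk n)⟩
    choose N hN using hex
    refine ⟨univ.sup N, fun k n hn => lt_of_lt_of_le (hN k n hn) (le_sup (mem_univ k))⟩
  have htot : ∑ k, (if ∃ n, g k = vv p m n then (1 : ZMod p) else 0) = 0 := by
    have h2 : ∀ k, (if ∃ n, g k = vv p m n then (1 : ZMod p) else 0) =
        ∑ n ∈ range N, (if g k = vv p m n then (1 : ZMod p) else 0) := by
      intro k
      by_cases hk : ∃ n, g k = vv p m n
      · rw [if_pos hk]
        obtain ⟨n, hn⟩ := hk
        rw [sum_eq_single n]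
        · rw [if_pos hn]
        · intro b _ hb
          rw [if_neg]
          intro hc
          rw [hn] at hc
          exact hb (vv_inj hm hc).symm
        · intro hc
          exact absurd (mem_range.2 (hN k n hn)) hc
      · rw [if_neg hk]
        push Not at hk
        exact (sum_eq_zero fun n _ => if_neg (hk n)).symm
    rw [sum_congr rfl fun k _ => h2 k, sum_comm]
    exact sum_eq_zero fun n _ => hV n
  refine ⟨fun k => if g k ∈ Ln p m then g k else 0, fun k => ?_, ?_⟩
  · dsimp only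
    split_ifs with hk
    · exact hk
    · exact Ln_zero m
  · ext x
    rw [Finsupp.finsetSum_apply]
    rcases x with l | x
    · rw [Finsupp.finsetSum_apply]
      have h2 : ∀ k, g k (Sum.inl l) = (if g k ∈ Ln p m then g k else 0) (Sum.inl l) +
          (if l ≤ m then 1 else 0) * (if ∃ n, g k = vv p m n then (1 : ZMod p) else 0) := by
        intro k
        rcases hg k with h3 | ⟨n', l', hn', hl', h3⟩ | ⟨n', hn', h3⟩
        · have hno : ¬ ∃ n, g k = vv p m n := by
            rintro ⟨n, hn⟩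
            have h4 := Ln_inr h3 (n, 0)
            rw [hn, vv_inr, if_pos ⟨rfl, by omega⟩] at h4
            exact one_ne_zero (neg_eq_zero.1 h4)
          simp only [h3, hno, if_true, if_false, mul_zero, add_zero]
        · have h4 : g k ∉ Ln p m := by
            intro hc
            have h5 := Ln_inr hc (n', l')
            rw [h3, uu_inr, if_pos ⟨rfl, rfl⟩] at h5
            exact one_ne_zero h5
          have hno : ¬ ∃ n, g k = vv p m n := by
            rintro ⟨n, hn⟩
            rw [h3] at hn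
            exact uu_ne_vv hn
          simp only [h4, hno, if_false, mul_zero, add_zero]
          rw [h3, uu_inl]
          rfl
        · have h4 : g k ∉ Ln p m := by
            intro hc
            have h5 := Ln_inr hc (n', 0)
            rw [h3, vv_inr, if_pos ⟨rfl, by omega⟩] at h5
            exact one_ne_zero (neg_eq_zero.1 h5)
          have hyes : ∃ n, g k = vv p m n := ⟨n', h3⟩
          simp only [h4, hyes, if_true, if_false, mul_one]
          rw [h3, vv_inl]
          simp
      rw [sum_congr rfl fun k _ => h2 k, sum_add_distrib, ← mul_sum, htot, mul_zero, add_zero]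
    · rw [h1]
      refine sum_eq_zero fun k _ => ?_
      split_ifs with hk
      · exact Ln_inr hk x
      · rfl

theorem one_eq {E : Type u} [AddCommGroup E] (B : Set E) : hs B 1 = B := by
  ext x
  constructor
  · rintro ⟨f, hf, rfl⟩
    rw [Fin.sum_univ_one]
    exact hf 0
  · intro hx
    exact ⟨fun _ => x, fun _ => hx, by rw [Fin.sum_univ_one]⟩

theorem no_new [Fact p.Prime] {m : ℕ} (hm : 2 ≤ m) {h : ℕ} (hne : h ≠ m) {x : T →₀ ZMod p}
    (hx : x ∈ ⋂ q, hs (Bq p m q) h) : x ∈ hs (Ln p m) h := by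
  rw [Set.mem_iInter] at hx
  have h1 : ∀ y : ℕ × ℕ, x (Sum.inr y) = 0 := by
    rintro ⟨n, l⟩
    obtain ⟨g, hg, hgx⟩ := hx (n + 1)
    rw [← hgx, Finsupp.finsetSum_apply]
    exact sum_eq_zero fun k _ => Bq_low (hg k) (Nat.lt_succ_self n) l
  obtain ⟨g, hg, rfl⟩ := hx 0
  rcases Nat.lt_or_ge h m with hh | hh
  · exact few hm hh hg h1
  · refine mem_hs_Ln (by omega) h1 fun l hl => ?_
    rw [Finsupp.finsetSum_apply]
    exact sum_eq_zero fun k _ => Bq_big (hg k) hl

theorem iInter_Bq [Fact p.Prime] {m : ℕ} (hm : 2 ≤ m) : (⋂ q, Bq p m q) = Ln p m := by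
  apply Set.Subset.antisymm
  · intro x hx
    have h1 : x ∈ ⋂ q, hs (Bq p m q) 1 := by
      simp only [one_eq]
      exact hx
    have h2 := no_new hm (by omega) h1
    rwa [one_eq] at h2
  · exact Set.subset_iInter fun q => Ln_sub m q

theorem one_missing [Fact p.Prime] {m : ℕ} (hm : 2 ≤ m) {h : ℕ} :
    hs (⋂ q, Bq p m q) h = (⋂ q, hs (Bq p m q) h) ↔ h ≠ m := by
  classical
  rw [iInter_Bq hm]
  constructor
  · rintro heq rfl
    have hmem : cc p h ∈ ⋂ q, hs (Bq p h q) h := by
      refine Set.mem_iInter.2 fun q => ?_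
      obtain ⟨k, rfl⟩ : ∃ k, h = k + 1 := ⟨h - 1, by omega⟩
      refine ⟨Fin.cons (vv p (k + 1) q) (fun l => uu p q l), ?_, ?_⟩
      · intro i
        refine Fin.cases ?_ (fun i => ?_) i
        · rw [Fin.cons_zero]
          exact Or.inr (Or.inr ⟨q, le_rfl, rfl⟩)
        · rw [Fin.cons_succ]
          exact Or.inr (Or.inl ⟨q, i, le_rfl, by have := i.2; omega, rfl⟩)
      · rw [Fin.sum_univ_succ, Fin.cons_zero]
        simp only [Fin.cons_succ]
        rw [Fin.sum_univ_eq_sum_range (fun l => uu p q l) k]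
        unfold vv
        rw [show k + 1 - 1 = k by omega, sub_add_cancel]
    rw [← heq] at hmem
    obtain ⟨g, hg, hgc⟩ := hmem
    choose L hL a ha using hg
    have hcard : ((univ : Finset (Fin h)).image L).card < (range (h + 1)).card := by
      rw [card_range]
      exact Nat.lt_succ_of_le (card_image_le.trans (by rw [card_univ, Fintype.card_fin]))
    obtain ⟨l, hl, hl'⟩ := exists_mem_notMem_of_card_lt_card hcard
    have h1 := DFunLike.congr_fun hgc (Sum.inl l)
    rw [cc_inl, if_pos (by have := mem_range.1 hl; omega), Finsupp.finsetSum_apply,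
      sum_eq_zero] at h1
    · exact zero_ne_one h1
    · intro k _
      rw [ha k, Finsupp.single_apply, if_neg]
      intro hc
      exact hl' (mem_image.2 ⟨k, mem_univ _, Sum.inl.inj hc⟩)
  · intro hne
    apply Set.Subset.antisymm
    · rintro x ⟨f, hf, rfl⟩
      exact Set.mem_iInter.2 fun q => ⟨f, fun i => Ln_sub m q (hf i), rfl⟩
    · exact fun x hx => no_new hm hne hx

/-- A strictly decreasing sequence for which nothing is missing. -/
def Dq (p q : ℕ) : Set (T →₀ ZMod p) := {f | f = 0 ∨ ∃ n, q ≤ n ∧ f = uu p n 0}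

theorem Dq_all [Fact p.Prime] (h : ℕ) : hs (⋂ q, Dq p q) h = ⋂ q, hs (Dq p q) h := by
  have hlow : ∀ q n, n < q → ∀ f ∈ Dq p q, f (Sum.inr (n, 0)) = 0 := by
    rintro q n hn f (rfl | ⟨n', hn', rfl⟩)
    · rfl
    · rw [uu_inr, if_neg (by omega)]
  have hother : ∀ q, ∀ f ∈ Dq p q, (∀ l, f (Sum.inl l) = 0) ∧ ∀ n l, l ≠ 0 → f (Sum.inr (n, l)) = 0 := by
    rintro q f (rfl | ⟨n', hn', rfl⟩)
    · exact ⟨fun _ => rfl, fun _ _ _ => rfl⟩
    · refine ⟨fun l => uu_inl _ _ _, fun n l hl => ?_⟩
      rw [uu_inr, if_neg]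
      rintro ⟨-, rfl⟩
      exact hl rfl
  apply Set.Subset.antisymm
  · rintro x ⟨f, hf, rfl⟩
    exact Set.mem_iInter.2 fun q => ⟨f, fun i => Set.mem_iInter.1 (hf i) q, rfl⟩
  · intro x hx
    rw [Set.mem_iInter] at hx
    have hx0 : x = 0 := by
      ext y
      rcases y with l | ⟨n, l⟩
      · obtain ⟨g, hg, rfl⟩ := hx 0
        rw [Finsupp.finsetSum_apply]
        exact sum_eq_zero fun k _ => (hother 0 _ (hg k)).1 l
      · by_cases hl : l = 0
        · subst hl
          obtain ⟨g, hg, rfl⟩ := hx (n + 1)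
          rw [Finsupp.finsetSum_apply]
          exact sum_eq_zero fun k _ => hlow _ n (Nat.lt_succ_self n) _ (hg k)
        · obtain ⟨g, hg, rfl⟩ := hx 0
          rw [Finsupp.finsetSum_apply]
          exact sum_eq_zero fun k _ => (hother 0 _ (hg k)).2 n l hl
    rw [hx0]
    exact ⟨fun _ => 0, fun _ => Set.mem_iInter.2 fun q => Or.inl rfl, by simp⟩

/-- Every set occurs in `ℕ →₀ (T →₀ ZMod p)`. -/
theorem good_dsum [Fact p.Prime] {M : Set ℕ} (hM : ∀ m ∈ M, 2 ≤ m) :
    Good (ℕ →₀ (T →₀ ZMod p)) M := by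
  classical
  set A : ℕ → ℕ → Set (T →₀ ZMod p) := fun q m => if m = 0 then Dq p q else Bq p m q with hA
  have h0 : ∀ q m, (0 : T →₀ ZMod p) ∈ A q m := by
    intro q m
    rw [hA]
    dsimp only
    split_ifs
    · exact Or.inl rfl
    · exact Or.inl (Ln_zero m)
  set J : Set ℕ := {m | m = 0 ∨ m ∈ M} with hJ
  refine ⟨fun q => rp J (A q), ?_, fun h hpos => ?_⟩
  · refine strictAnti_nat_of_succ_lt fun q => ⟨?_, fun hc => ?_⟩
    · rintro f ⟨h1, h2⟩
      refine ⟨fun m hm => ?_, h2⟩
      have h3 := h1 m hm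
      rw [hA] at h3 ⊢
      dsimp only at h3 ⊢
      by_cases hm0 : m = 0
      · rw [if_pos hm0] at h3 ⊢
        rcases h3 with h3 | ⟨n, hn, h3⟩
        · exact Or.inl h3
        · exact Or.inr ⟨n, (Nat.le_succ q).trans hn, h3⟩
      · rw [if_neg hm0] at h3 ⊢
        exact Bq_anti (Nat.le_succ q) h3
    · have h1 : Finsupp.single 0 (uu p q 0) ∈ rp J (A q) := by
        refine ⟨fun m hm => ?_, fun m hm => ?_⟩
        · by_cases hm0 : m = 0
          · subst hm0
            rw [Finsupp.single_eq_same, hA]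
            dsimp only
            rw [if_pos rfl]
            exact Or.inr ⟨q, le_rfl, rfl⟩
          · rw [Finsupp.single_apply, if_neg (Ne.symm hm0)]
            exact h0 q m
        · rw [Finsupp.single_apply, if_neg]
          rintro rfl
          exact hm (Or.inl rfl)
      have h2 := (hc h1).1 0 (Or.inl rfl)
      rw [Finsupp.single_eq_same, hA] at h2
      dsimp only at h2
      rw [if_pos rfl] at h2
      rcases h2 with h2 | ⟨n, hn, h2⟩
      · have h3 := DFunLike.congr_fun h2 (Sum.inr (q, 0))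
        rw [uu_inr, if_pos ⟨rfl, rfl⟩] at h3
        exact one_ne_zero h3
      · have := (uu_inj h2).1
        omega
  · rw [dsum_iff h0]
    constructor
    · intro hall hh
      have h1 := hall h (Or.inr hh)
      have h2 := hM h hh
      rw [hA] at h1
      dsimp only at h1
      simp only [if_neg (show h ≠ 0 by omega)] at h1
      exact (one_missing h2).1 h1 rfl
    · intro hh m hm
      rw [hA]
      dsimp only
      by_cases hm0 : m = 0
      · simp only [if_pos hm0]
        exact Dq_all h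
      · simp only [if_neg hm0]
        have hmM : m ∈ M := hm.resolve_left hm0
        exact (one_missing (hM m hmM)).2 (by rintro rfl; exact hh hmM)

end

end Pool.Agent.H94.PI
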