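import Mathlib

/-! # PI.Conv : product sets, finite sums, subgroups, index sets

Definitions of the hand-in MP_57f2ab_co (product sets with the product bracketed to the left, product
intersection sets) and their form for sums over `Fin h` in a commutative group. -/

set_option autoImplicit false

universe u v

namespace Pool.Agent.H94.PI

/-- The `h`-fold product set `A^h = {a₁a₂⋯a_h : aᵢ ∈ A}` for `h ≥ 1`: an element is written as
`((a₁ a₂) a₃) ⋯ a_h`, where `a₁ = a` and `[a₂, …, a_h] = l`. -/
def productSet {S : Type v} [Mul S] (A : Set S) (h : ℕ+) : Set S :=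
  {x | ∃ a ∈ A, ∃ l : List S, l.length + 1 = (h : ℕ) ∧ (∀ b ∈ l, b ∈ A) ∧
    l.foldl (fun y z => y * z) a = x}

/-- The product intersection set `H(A_q) = {h ≥ 1 : (⋂ A_q)^h = ⋂ (A_q)^h}` of a family. -/
def productIntersectionSet {S : Type v} {Q : Type u} [Mul S] (A : Q → Set S) : Set ℕ+ :=
  {h | productSet (⋂ q, A q) h = ⋂ q, productSet (A q) h}

/-- `h`-fold sums in an additive commutative group. -/
def hs {G : Type v} [AddCommGroup G] (A : Set G) (h : ℕ) : Set G :=
  {x | ∃ f : Fin h → G, (∀ i, f i ∈ A) ∧ ∑ i, f i = x}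

theorem foldl_mul {S : Type v} [CommMonoid S] (l : List S) (a : S) :
    l.foldl (fun y z => y * z) a = a * l.prod := by
  induction l generalizing a with
  | nil => simp
  | cons b l ih => rw [List.foldl_cons, ih, List.prod_cons, mul_assoc]

theorem mem_productSet {S : Type v} [CommMonoid S] (A : Set S) (h : ℕ+) (x : S) :
    x ∈ productSet A h ↔ ∃ f : Fin h → S, (∀ i, f i ∈ A) ∧ ∏ i, f i = x := by
  constructor
  · rintro ⟨a, ha, l, hl, hlA, rfl⟩
    have hlen : (a :: l).length = (h : ℕ) := by simpa using hl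
    refine ⟨fun i => (a :: l).get (i.cast hlen.symm), fun i => ?_, ?_⟩
    · have hm : (a :: l).get (i.cast hlen.symm) ∈ (a :: l) := List.get_mem _ _
      show (a :: l).get (i.cast hlen.symm) ∈ A
      rcases List.mem_cons.1 hm with h1 | h1
      · rw [h1]; exact ha
      · exact hlA _ h1
    · rw [foldl_mul, ← List.prod_cons, ← List.prod_ofFn]
      congr 1
      apply List.ext_get
      · simp [hlen]
      · intro k h1 h2
        simp
  · rintro ⟨f, hf, rfl⟩
    obtain ⟨k, hk⟩ : ∃ k, (h : ℕ) = k + 1 := ⟨(h : ℕ) - 1, by have := h.pos; omega⟩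
    have key : ∀ (m : ℕ) (f : Fin m → S), m = k + 1 → (∀ i, f i ∈ A) →
        ∃ a ∈ A, ∃ l : List S, l.length + 1 = m ∧ (∀ b ∈ l, b ∈ A) ∧
          l.foldl (fun y z => y * z) a = ∏ i, f i := by
      rintro m f rfl hf
      refine ⟨f 0, hf 0, List.ofFn (fun i : Fin k => f i.succ), by simp, ?_, ?_⟩
      · intro b hb
        obtain ⟨i, rfl⟩ := (List.mem_ofFn' _ _).1 hb
        exact hf _
      · rw [foldl_mul, List.prod_ofFn, Fin.prod_univ_succ]
    exact key h f hk hf

theorem productSet_image {S : Type v} {T : Type v} [Mul S] [Mul T] (φ : S →ₙ* T) (A : Set S)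
    (h : ℕ+) : productSet (φ '' A) h = φ '' productSet A h := by
  have hfold : ∀ (l : List S) (a : S),
      (l.map φ).foldl (fun y z => y * z) (φ a) = φ (l.foldl (fun y z => y * z) a) := by
    intro l
    induction l with
    | nil => intro a; rfl
    | cons b l ih =>
      intro a
      rw [List.map_cons, List.foldl_cons, List.foldl_cons, ← map_mul, ih]
  ext x
  constructor
  · rintro ⟨_, ⟨a, ha, rfl⟩, l, hl, hlA, rfl⟩
    have : ∃ l' : List S, l = l'.map φ ∧ ∀ b ∈ l', b ∈ A := by
      clear hl
      induction l with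
      | nil => exact ⟨[], rfl, by simp⟩
      | cons b l ih =>
        obtain ⟨l', rfl, hl'⟩ := ih (fun b hb => hlA b (List.mem_cons_of_mem _ hb))
        obtain ⟨b', hb', rfl⟩ := hlA b List.mem_cons_self
        refine ⟨b' :: l', rfl, ?_⟩
        intro c hc
        rcases List.mem_cons.1 hc with rfl | hc
        · exact hb'
        · exact hl' c hc
    obtain ⟨l', rfl, hl'⟩ := this
    refine ⟨_, ⟨a, ha, l', by simpa using hl, hl', rfl⟩, ?_⟩
    rw [hfold]
  · rintro ⟨_, ⟨a, ha, l, hl, hlA, rfl⟩, rfl⟩
    refine ⟨φ a, ⟨a, ha, rfl⟩, l.map φ, by simpa using hl, ?_, hfold l a⟩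
    intro b hb
    obtain ⟨b', hb', rfl⟩ := List.mem_map.1 hb
    exact ⟨b', hlA b' hb', rfl⟩

theorem pis_image {S : Type v} {T : Type v} {Q : Type u} [Nonempty Q] [Mul S] [Mul T]
    (φ : S →ₙ* T) (hφ : Function.Injective φ) (A : Q → Set S) :
    productIntersectionSet (fun q => φ '' A q) = productIntersectionSet A := by
  ext h
  have h1 : (⋂ q, φ '' A q) = φ '' ⋂ q, A q := (hφ.injOn.image_iInter_eq).symm
  have h2 : (⋂ q, productSet (φ '' A q) h) = φ '' ⋂ q, productSet (A q) h := by
    rw [hφ.injOn.image_iInter_eq]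
    exact Set.iInter_congr fun q => productSet_image φ (A q) h
  show productSet (⋂ q, φ '' A q) h = (⋂ q, productSet (φ '' A q) h) ↔
    productSet (⋂ q, A q) h = ⋂ q, productSet (A q) h
  rw [h1, h2, productSet_image]
  exact hφ.image_injective.eq_iff

/-- From a sequence to a family with any infinite index set. -/
theorem exists_family {S : Type v} [Mul S] (A : ℕ → Set S) (hA : StrictAnti A) (Q : Type u)
    [Infinite Q] : ∃ B : Q → Set S, (Set.range B).Infinite ∧
      productIntersectionSet B = productIntersectionSet A := by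
  classical
  obtain ⟨s, hs⟩ : ∃ s : Q → ℕ, Function.Surjective s :=
    ⟨Function.invFun (Infinite.natEmbedding Q),
      Function.invFun_surjective (Infinite.natEmbedding Q).injective⟩
  refine ⟨fun q => A (s q), ?_, ?_⟩
  · have h1 : Set.range (fun q => A (s q)) = Set.range A := by
      rw [show (fun q => A (s q)) = A ∘ s from rfl, hs.range_comp]
    rw [h1]
    exact Set.infinite_range_of_injective hA.injective
  · ext h
    have h1 : (⋂ q, A (s q)) = ⋂ n, A n := hs.iInter_comp A
    have h2 : (⋂ q, productSet (A (s q)) h) = ⋂ n, productSet (A n) h :=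
      hs.iInter_comp (fun n => productSet (A n) h)
    show productSet (⋂ q, A (s q)) h = (⋂ q, productSet (A (s q)) h) ↔
      productSet (⋂ n, A n) h = ⋂ n, productSet (A n) h
    rw [h1, h2]

/-- `M` is realised in `G`: there is a strictly decreasing sequence of subsets whose `h`-fold sum
behaves well exactly for `h ∉ M`. -/
def Good (G : Type v) [AddCommGroup G] (M : Set ℕ) : Prop :=
  ∃ A : ℕ → Set G, StrictAnti A ∧ ∀ h, 1 ≤ h → (hs (⋂ q, A q) h = ⋂ q, hs (A q) h ↔ h ∉ M)

theorem hs_image {G : Type u} {H : Type v} [AddCommGroup G] [AddCommGroup H] (φ : G →+ H)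
    (A : Set G) (h : ℕ) : hs (φ '' A) h = φ '' hs A h := by
  ext x
  constructor
  · rintro ⟨f, hf, rfl⟩
    choose g hg hgf using hf
    refine ⟨∑ i, g i, ⟨g, hg, rfl⟩, ?_⟩
    rw [map_sum]
    exact Finset.sum_congr rfl fun i _ => hgf i
  · rintro ⟨_, ⟨f, hf, rfl⟩, rfl⟩
    exact ⟨fun i => φ (f i), fun i => ⟨f i, hf i, rfl⟩, (map_sum φ _ _).symm⟩

theorem Good.of_injective {G : Type u} {H : Type v} [AddCommGroup G] [AddCommGroup H]
    (φ : G →+ H) (hφ : Function.Injective φ) {M : Set ℕ} (hG : Good G M) : Good H M := by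
  obtain ⟨A, hA, hM⟩ := hG
  refine ⟨fun q => φ '' A q, ?_, fun h h1 => ?_⟩
  · intro a b hab
    exact hφ.image_strictMono (hA hab)
  · have e1 : (⋂ q, φ '' A q) = φ '' ⋂ q, A q := (hφ.injOn.image_iInter_eq).symm
    have e2 : (⋂ q, hs (φ '' A q) h) = φ '' ⋂ q, hs (A q) h := by
      rw [hφ.injOn.image_iInter_eq]
      exact Set.iInter_congr fun q => hs_image φ (A q) h
    rw [e1, e2, hs_image, hφ.image_injective.eq_iff]
    exact hM h h1

/-- The multiplicative form. -/
theorem mul_of_good {K : Type v} [CommGroup K] {X : Set ℕ+}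
    (hG : Good (Additive K) {m : ℕ | ∀ h : ℕ+, (h : ℕ) = m → h ∉ X}) :
    ∃ A : ℕ → Set K, StrictAnti A ∧ productIntersectionSet A = X := by
  obtain ⟨A, hA, hM⟩ := hG
  refine ⟨fun q => {x | Additive.ofMul x ∈ A q}, ?_, ?_⟩
  · intro a b hab
    have h1 := hA hab
    refine ⟨fun x hx => h1.1 hx, fun hc => h1.2 fun x hx => ?_⟩
    exact hc (show Additive.ofMul (Additive.toMul x) ∈ A a from hx)
  · ext h
    have key : ∀ B : Set (Additive K), ∀ x : K,
        x ∈ productSet {x : K | Additive.ofMul x ∈ B} h ↔ Additive.ofMul x ∈ hs B h := by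
      intro B x
      rw [mem_productSet]
      constructor
      · rintro ⟨f, hf, rfl⟩
        exact ⟨fun i => Additive.ofMul (f i), hf, (ofMul_prod _ _).symm⟩
      · rintro ⟨f, hf, hx⟩
        refine ⟨fun i => Additive.toMul (f i), hf, ?_⟩
        have := congrArg Additive.toMul hx
        rw [toMul_sum] at this
        exact this
    have hi : (⋂ q, {x : K | Additive.ofMul x ∈ A q}) = {x : K | Additive.ofMul x ∈ ⋂ q, A q} := by
      ext x
      simp
    have e : productSet (⋂ q, {x : K | Additive.ofMul x ∈ A q}) h =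
        (⋂ q, productSet {x : K | Additive.ofMul x ∈ A q} h) ↔
          hs (⋂ q, A q) h = ⋂ q, hs (A q) h := by
      rw [hi]
      constructor
      · intro he
        ext x
        have h1 := Set.ext_iff.1 he (Additive.toMul x)
        rw [key] at h1
        simp only [Set.mem_iInter] at h1 ⊢
        rw [show Additive.ofMul (Additive.toMul x) = x from rfl] at h1
        rw [h1]
        exact forall_congr' fun q => key (A q) (Additive.toMul x)
      · intro he
        ext x
        have h1 := Set.ext_iff.1 he (Additive.ofMul x)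
        rw [key]
        simp only [Set.mem_iInter] at h1 ⊢
        rw [h1]
        exact forall_congr' fun q => (key (A q) x).symm
    show productSet (⋂ q, {x : K | Additive.ofMul x ∈ A q}) h =
        (⋂ q, productSet {x : K | Additive.ofMul x ∈ A q} h) ↔ h ∈ X
    rw [e, hM h h.pos]
    constructor
    · intro h1
      by_contra h2
      apply h1
      intro h' hh'
      rwa [PNat.coe_injective hh']
    · intro h1 h2
      exact h2 h rfl h1

end Pool.Agent.H94.PI
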