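import Pool.Agent.H94.PI.Unb
import Pool.Agent.H94.PI.Bdd

/-! # PI.Main : every set occurs in every infinite commutative group -/

set_option autoImplicit false

universe u v

namespace Pool.Agent.H94.PI

open Finset

theorem torsion_finite {G : Type v} [AddCommGroup G]
    (hp : ∀ p : ℕ, p.Prime → {x : G | p • x = 0}.Finite) (n : ℕ) :
    n ≠ 0 → {x : G | n • x = 0}.Finite := by
  induction n using Nat.recOnMul with
  | zero => exact fun h => absurd rfl h
  | one =>
    intro _
    have : {x : G | 1 • x = 0} = {0} := by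
      ext x
      simp
    rw [this]
    exact Set.finite_singleton 0
  | prime p h => exact fun _ => hp p h
  | mul a b ha hb =>
    intro hab
    have ha0 : a ≠ 0 := left_ne_zero_of_mul hab
    have hb0 : b ≠ 0 := right_ne_zero_of_mul hab
    have h1 : {x : G | (a * b) • x = 0} = (fun x : G => b • x) ⁻¹' {x : G | a • x = 0} := by
      ext x
      simp only [Set.mem_ofPred_eq, Set.mem_preimage, mul_smul]
    rw [h1]
    refine (ha ha0).preimage' fun y _ => ?_
    by_cases hne : ∃ x0 : G, b • x0 = y
    · obtain ⟨x0, hx0⟩ := hne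
      refine ((hb hb0).image fun z => x0 + z).subset ?_
      intro x hx
      have hx' : b • x = y := hx
      refine ⟨x - x0, ?_, by simp⟩
      show b • (x - x0) = 0
      rw [smul_sub, hx', hx0, sub_self]
    · push Not at hne
      have : (fun x : G => b • x) ⁻¹' {y} = ∅ := by
        ext x
        simp only [Set.mem_preimage, Set.mem_singleton_iff, Set.mem_empty_iff_false, iff_false]
        exact hne x
      rw [this]
      exact Set.finite_empty

theorem exists_prime {G : Type v} [AddCommGroup G] [Infinite G] {N : ℕ} (hN : 1 ≤ N)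
    (hfin : (Set.range fun x : G => N • x).Finite) :
    ∃ p : ℕ, p.Prime ∧ {x : G | p • x = 0}.Infinite := by
  by_contra hcon
  push Not at hcon
  have htf := torsion_finite (G := G) hcon
  set φ : G →+ G := nsmulAddMonoidHom N with hφ
  have hR : Finite φ.range := by
    have : (φ.range : Set G) = Set.range fun x : G => N • x := by
      ext x
      simp [hφ]
    exact Set.Finite.to_subtype (this ▸ hfin)
  have he : Nat.card φ.range ≠ 0 := Nat.card_ne_zero.2 ⟨⟨0⟩, hR⟩
  have hall : ∀ x : G, (Nat.card φ.range * N) • x = 0 := by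
    intro x
    have h1 : Nat.card φ.range • (⟨φ x, x, rfl⟩ : φ.range) = 0 := card_nsmul_eq_zero'
    have h2 := congrArg Subtype.val h1
    rw [mul_smul]
    exact h2
  have h3 := htf _ (Nat.mul_ne_zero he (show N ≠ 0 by omega))
  have h4 : {x : G | (Nat.card φ.range * N) • x = 0} = Set.univ := by
    ext x
    simp only [Set.mem_ofPred_eq, Set.mem_univ, iff_true]
    exact hall x
  rw [h4] at h3
  exact Set.infinite_univ h3

theorem good_bdd {G : Type v} [AddCommGroup G] {p : ℕ} (hp : p.Prime)
    (hinf : {x : G | p • x = 0}.Infinite) {M : Set ℕ} (hM : ∀ m ∈ M, 2 ≤ m) : Good G M := by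
  classical
  have : Fact p.Prime := ⟨hp⟩
  set V : AddSubgroup G := (nsmulAddMonoidHom p : G →+ G).ker with hV
  have hVmem : ∀ x : G, x ∈ V ↔ p • x = 0 := fun x => by
    rw [hV, AddMonoidHom.mem_ker]
    rfl
  have hVinf : Infinite V := by
    have h1 : (V : Set G) = {x : G | p • x = 0} := by
      ext x
      exact hVmem x
    have h2 : (V : Set G).Infinite := h1 ▸ hinf
    exact h2.to_subtype
  let inst : Module (ZMod p) V := AddCommGroup.zmodModule (n := p) (fun x => by
    apply Subtype.ext
    exact (hVmem x.1).1 x.2)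
  set b := Module.Basis.ofVectorSpace (ZMod p) V with hb
  have hι : Infinite (Module.Basis.ofVectorSpaceIndex (ZMod p) V) := by
    by_contra hfin
    rw [not_infinite_iff_finite] at hfin
    have h1 : Module.Finite (ZMod p) V := Module.Finite.of_basis b
    have h3 : NeZero p := ⟨hp.ne_zero⟩
    have h4 : Finite (ZMod p) := inferInstance
    have h2 : Finite V := @Module.finite_of_finite (ZMod p) V _ _ _ _ h1
    exact not_finite V
  obtain ⟨e, he⟩ : ∃ e : ℕ × T → Module.Basis.ofVectorSpaceIndex (ZMod p) V,
      Function.Injective e := by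
    obtain ⟨c, hc⟩ := exists_injective_nat (ℕ × T)
    exact ⟨fun x => Infinite.natEmbedding _ (c x),
      (Infinite.natEmbedding _).injective.comp hc⟩
  let φ1 : (ℕ →₀ (T →₀ ZMod p)) →+ (ℕ × T →₀ ZMod p) := Finsupp.curryAddEquiv.symm.toAddMonoidHom
  let φ2 : (ℕ × T →₀ ZMod p) →+ (Module.Basis.ofVectorSpaceIndex (ZMod p) V →₀ ZMod p) :=
    Finsupp.mapDomain.addMonoidHom e
  let φ3 : (Module.Basis.ofVectorSpaceIndex (ZMod p) V →₀ ZMod p) →+ V :=
    b.repr.symm.toLinearMap.toAddMonoidHom
  have i1 : Function.Injective φ1 := Finsupp.curryAddEquiv.symm.injective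
  have i2 : Function.Injective φ2 := Finsupp.mapDomain_injective he
  have i3 : Function.Injective φ3 := b.repr.symm.injective
  have i4 : Function.Injective V.subtype := V.subtype_injective
  exact (good_dsum (p := p) hM).of_injective (V.subtype.comp (φ3.comp (φ2.comp φ1)))
    (i4.comp (i3.comp (i2.comp i1)))

theorem good_all (G : Type v) [AddCommGroup G] [Infinite G] {M : Set ℕ} (hM : ∀ m ∈ M, 2 ≤ m) :
    Good G M := by
  by_cases hU : ∀ N : ℕ, 1 ≤ N → (Set.range fun x : G => N • x).Infinite
  · exact good_unb hU hM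
  · push Not at hU
    obtain ⟨N, hN, hfin⟩ := hU
    obtain ⟨p, hp, hinf⟩ := exists_prime hN hfin
    exact good_bdd hp hinf hM

/-- The theorem for groups with an infinite commutative subgroup. -/
theorem main {G : Type v} [Group G] (H : Subgroup G) [Infinite H]
    (hH : ∀ a ∈ H, ∀ b ∈ H, a * b = b * a) {X : Set ℕ+} (hX : 1 ∈ X) :
    ∃ A : ℕ → Set G, StrictAnti A ∧ productIntersectionSet A = X := by
  let inst : CommGroup H := { (inferInstance : Group H) with
    mul_comm := fun a b => Subtype.ext (hH a a.2 b b.2) }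
  have hinf : Infinite (Additive H) := inferInstanceAs (Infinite H)
  have hM : ∀ m ∈ {m : ℕ | 1 ≤ m ∧ ∀ h : ℕ+, (h : ℕ) = m → h ∉ X}, 2 ≤ m := by
    rintro m ⟨h0, hm⟩
    by_contra hlt
    have : m = 1 := by omega
    subst this
    exact hm 1 rfl hX
  have hgood := good_all (Additive H) hM
  obtain ⟨A, hA, hAX⟩ := mul_of_good (K := H) (X := X) (by
    obtain ⟨A, hA, hAM⟩ := hgood
    refine ⟨A, hA, fun h hpos => ?_⟩
    rw [hAM h hpos]
    constructor
    · exact fun h1 h2 => h1 ⟨hpos, h2⟩
    · exact fun h1 h2 => h1 h2.2)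
  refine ⟨fun q => H.subtype '' A q, ?_, ?_⟩
  · intro a b hab
    exact H.subtype_injective.image_strictMono (hA hab)
  · rw [← hAX]
    exact pis_image (H.subtype : H →* G).toMulHom H.subtype_injective A

end Pool.Agent.H94.PI
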