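import Mathlib

/-! # PI.Wts : dissociated weights in a commutative group of unbounded exponent

If `N • G` is infinite for every `N ≥ 1` then there is a sequence `w` such that in every relation
`∑_{j ≤ i} d_j w_j = 0` with `|d_j| ≤ b i` the top digit `d_i` vanishes. -/

set_option autoImplicit false

universe v

namespace Pool.Agent.H94.PI

open Finset

section

variable {G : Type v} [AddCommGroup G]

theorem exists_next (hU : ∀ N : ℕ, 1 ≤ N → (Set.range fun x : G => N • x).Infinite) (i : ℕ)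
    (w : Fin i → G) (b : ℕ) :
    ∃ y : G, ∀ d : Fin i → ℤ, ∀ e : ℤ, (∀ j, |d j| ≤ b) → |e| ≤ b →
      ∑ j, d j • w j + e • y = 0 → e = 0 := by
  classical
  -- the finite set of values of the lower part
  set I : Finset ℤ := Icc (-(b : ℤ)) b with hI
  set F : Finset G := (Fintype.piFinset fun _ : Fin i => I).image fun d => ∑ j, d j • w j with hF
  set N : ℕ := b.factorial with hN
  have hN1 : 1 ≤ N := Nat.factorial_pos b
  set F' : Finset G := (F ×ˢ Icc (-(N : ℤ)) N).image fun p => p.2 • p.1 with hF'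
  obtain ⟨_, ⟨y, rfl⟩, hy⟩ := (hU N hN1).exists_notMem_finset F'
  refine ⟨y, fun d e hd he hsum => ?_⟩
  by_contra hne
  apply hy
  have hdvd : e ∣ (N : ℤ) := by
    rw [← Int.natAbs_dvd]
    have h1 : e.natAbs ∣ N := by
      refine Nat.dvd_factorial (Int.natAbs_pos.2 hne) ?_
      have : (e.natAbs : ℤ) ≤ b := by rwa [Int.natCast_natAbs]
      exact_mod_cast this
    exact_mod_cast h1
  obtain ⟨c, hc⟩ := hdvd
  have hcN : |c| ≤ N := by
    have h1 : |(N : ℤ)| = |e| * |c| := by rw [hc, abs_mul]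
    have h2 : 1 ≤ |e| := Int.one_le_abs hne
    have h3 : |(N : ℤ)| = N := abs_of_nonneg (by positivity)
    nlinarith [abs_nonneg c]
  rw [hF', mem_image]
  refine ⟨(∑ j, d j • w j, -c), ?_, ?_⟩
  · rw [mem_product]
    refine ⟨?_, ?_⟩
    · rw [hF, mem_image]
      refine ⟨d, ?_, rfl⟩
      rw [Fintype.mem_piFinset]
      intro j
      rw [hI, mem_Icc]
      exact abs_le.1 (hd j)
    · show -c ∈ Icc (-(N : ℤ)) N
      rw [mem_Icc]
      have := abs_le.1 hcN
      constructor <;> linarith [this.1, this.2]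
  · show (-c) • (∑ j, d j • w j) = N • y
    have h1 : ∑ j, d j • w j = -(e • y) := eq_neg_of_add_eq_zero_left hsum
    rw [h1, neg_smul_neg, smul_smul, mul_comm c e, ← hc]
    exact natCast_zsmul y N

/-- The recursive choice. -/
noncomputable def wts (next : (i : ℕ) → (Fin i → G) → G) : ℕ → G
  | i => next i fun j => wts next j
termination_by i => i
decreasing_by exact j.2

theorem exists_weights (hU : ∀ N : ℕ, 1 ≤ N → (Set.range fun x : G => N • x).Infinite)
    (b : ℕ → ℕ) : ∃ w : ℕ → G, ∀ i : ℕ, ∀ d : ℕ → ℤ, (∀ j ≤ i, |d j| ≤ b i) →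
      ∑ j ∈ range (i + 1), d j • w j = 0 → d i = 0 := by
  choose next hnext using fun (i : ℕ) (w : Fin i → G) => exists_next hU i w (b i)
  refine ⟨wts next, fun i d hd hsum => ?_⟩
  have h1 := hnext i (fun j => wts next j) (fun j => d j) (d i) (fun j => hd j j.2.le)
    (hd i le_rfl)
  apply h1
  rw [sum_range_succ, ← Fin.sum_univ_eq_sum_range (fun j => d j • wts next j)] at hsum
  rw [← hsum]
  congr 2
  conv_rhs => rw [wts]

/-- Finitely supported form of the dissociation. -/
theorem exists_weights' (hU : ∀ N : ℕ, 1 ≤ N → (Set.range fun x : G => N • x).Infinite)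
    (b : ℕ → ℕ) : ∃ φ : (ℕ →₀ ℤ) →+ G, ∀ d : ℕ →₀ ℤ, φ d = 0 → ∀ K : ℕ,
      (∀ i, K ≤ i → ∀ j ≤ i, |d j| ≤ b i) → ∀ i, K ≤ i → d i = 0 := by
  obtain ⟨w, hw⟩ := exists_weights hU b
  refine ⟨(Finsupp.linearCombination ℤ w).toAddMonoidHom, fun d hd K hK => ?_⟩
  by_contra hcon
  push Not at hcon
  obtain ⟨i0, hi0, hi0'⟩ := hcon
  have hne : d.support.Nonempty := ⟨i0, Finsupp.mem_support_iff.2 hi0'⟩
  set i := d.support.max' hne with hi
  have hile : i0 ≤ i := le_max' _ _ (Finsupp.mem_support_iff.2 hi0')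
  have hdi : d i ≠ 0 := Finsupp.mem_support_iff.1 (max'_mem _ _)
  apply hdi
  apply hw i d (hK i (hi0.trans hile))
  have h1 : Finsupp.linearCombination ℤ w d = 0 := hd
  rw [Finsupp.linearCombination_apply, Finsupp.sum] at h1
  rw [← h1]
  symm
  apply sum_subset
  · intro j hj
    rw [mem_range]
    exact Nat.lt_succ_of_le (le_max' _ _ hj)
  · intro j _ hj
    rw [Finsupp.notMem_support_iff.1 hj, zero_smul]

end

end Pool.Agent.H94.PI
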