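import Pool.Agent.H94.PI.Conv
import Pool.Agent.H94.PI.Wts

/-! # PI.Unb : every set occurs in a commutative group of unbounded exponent

Formal group `ℕ →₀ ℤ`: even slots `2m` carry the digits `{0, 1, m+2, m+3}` for `m ∈ M`, odd slots
`2n+1` carry the elements `u_n`; `v_{m,n} = (m+1) e_{2m} - (m-1) u_n`. -/

set_option autoImplicit false

universe v

namespace Pool.Agent.H94.PI

open Finset

/-- The limit set. -/
def Ah (M : Set ℕ) : Set (ℕ →₀ ℤ) :=
  {f | (∀ n, f (2 * n + 1) = 0) ∧ (∀ m, m ∉ M → f (2 * m) = 0) ∧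
    ∀ m : ℕ, f (2 * m) = 0 ∨ f (2 * m) = 1 ∨ f (2 * m) = m + 2 ∨ f (2 * m) = m + 3}

/-- The elements `u_n`. -/
noncomputable def Ue (n : ℕ) : ℕ →₀ ℤ := Finsupp.single (2 * n + 1) 1

/-- The elements `v_{m,n}`. -/
noncomputable def Ve (m n : ℕ) : ℕ →₀ ℤ :=
  Finsupp.single (2 * m) ((m : ℤ) + 1) - Finsupp.single (2 * n + 1) ((m : ℤ) - 1)

/-- The sequence of sets. -/
def Aq (M : Set ℕ) (q : ℕ) : Set (ℕ →₀ ℤ) :=
  {f | f ∈ Ah M ∨ (∃ n, q ≤ n ∧ f = Ue n) ∨ ∃ m n, m ∈ M ∧ m ≤ n ∧ q ≤ n ∧ f = Ve m n}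

theorem Ah_sub (M : Set ℕ) (q : ℕ) : Ah M ⊆ Aq M q := fun _ h => Or.inl h

theorem Aq_anti {M : Set ℕ} {q q' : ℕ} (h : q ≤ q') : Aq M q' ⊆ Aq M q := by
  rintro f (h1 | ⟨n, hn, rfl⟩ | ⟨m, n, hm, hmn, hn, rfl⟩)
  · exact Or.inl h1
  · exact Or.inr (Or.inl ⟨n, h.trans hn, rfl⟩)
  · exact Or.inr (Or.inr ⟨m, n, hm, hmn, h.trans hn, rfl⟩)

theorem hs_mono {G : Type v} [AddCommGroup G] {A B : Set G} (h : A ⊆ B) (k : ℕ) :
    hs A k ⊆ hs B k := by
  rintro x ⟨f, hf, rfl⟩
  exact ⟨f, fun i => h (hf i), rfl⟩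

@[simp] theorem Ue_even (n m : ℕ) : Ue n (2 * m) = 0 := by
  unfold Ue
  rw [Finsupp.single_apply, if_neg (by omega)]

theorem Ue_odd (n k : ℕ) : Ue n (2 * k + 1) = if n = k then 1 else 0 := by
  unfold Ue
  rw [Finsupp.single_apply]
  by_cases h : n = k
  · rw [if_pos (by omega), if_pos h]
  · rw [if_neg (by omega), if_neg h]

theorem Ve_even (m n k : ℕ) : Ve m n (2 * k) = if m = k then (m : ℤ) + 1 else 0 := by
  unfold Ve
  rw [Finsupp.sub_apply, Finsupp.single_apply, Finsupp.single_apply, if_neg (by omega : ¬ 2 * n + 1 = 2 * k)]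
  by_cases h : m = k
  · rw [if_pos (by omega), if_pos h, sub_zero]
  · rw [if_neg (by omega), if_neg h, sub_zero]

theorem Ve_odd (m n k : ℕ) : Ve m n (2 * k + 1) = if n = k then -((m : ℤ) - 1) else 0 := by
  unfold Ve
  rw [Finsupp.sub_apply, Finsupp.single_apply, Finsupp.single_apply, if_neg (by omega : ¬ 2 * m = 2 * k + 1)]
  by_cases h : n = k
  · rw [if_pos (by omega), if_pos h, zero_sub]
  · rw [if_neg (by omega), if_neg h, sub_zero]

theorem bound_one {M : Set ℕ} (hM : ∀ m ∈ M, 2 ≤ m) {q : ℕ} {f : ℕ →₀ ℤ} (hf : f ∈ Aq M q)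
    (i : ℕ) : |f i| ≤ i + 3 := by
  obtain ⟨k, hk | hk⟩ := Nat.even_or_odd' i
  · subst hk
    rcases hf with ⟨-, -, h⟩ | ⟨n, hn, rfl⟩ | ⟨m, n, hm, hmn, hn, rfl⟩
    · rcases h k with h | h | h | h <;> rw [h, abs_le] <;> push_cast <;> constructor <;> linarith
    · rw [Ue_even, abs_zero]; positivity
    · rw [Ve_even]
      split_ifs with h
      · subst h
        rw [abs_le]
        push_cast
        constructor <;> linarith
      · rw [abs_zero]; positivity
  · subst hk
    rcases hf with ⟨h, -, -⟩ | ⟨n, hn, rfl⟩ | ⟨m, n, hm, hmn, hn, rfl⟩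
    · rw [h, abs_zero]; positivity
    · rw [Ue_odd]
      split_ifs with h
      · rw [abs_one]; push_cast; linarith
      · rw [abs_zero]; positivity
    · rw [Ve_odd]
      split_ifs with h
      · subst h
        have h2 := hM m hm
        have h3 : (2 : ℤ) ≤ m := by exact_mod_cast h2
        have h4 : (m : ℤ) ≤ n := by exact_mod_cast hmn
        rw [abs_le]
        push_cast
        constructor <;> linarith
      · rw [abs_zero]; positivity

theorem bound_hs {M : Set ℕ} (hM : ∀ m ∈ M, 2 ≤ m) {q h : ℕ} {f : ℕ →₀ ℤ}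
    (hf : f ∈ hs (Aq M q) h) (i : ℕ) : |f i| ≤ h * (i + 3) := by
  obtain ⟨g, hg, rfl⟩ := hf
  rw [Finsupp.finsetSum_apply]
  refine (abs_sum_le_sum_abs _ _).trans ?_
  refine (sum_le_sum fun k _ => bound_one hM (hg k) i).trans ?_
  rw [sum_const, card_univ, Fintype.card_fin, nsmul_eq_mul]

theorem odd_low_one {M : Set ℕ} {q : ℕ} {f : ℕ →₀ ℤ} (hf : f ∈ Aq M q) {n : ℕ} (hn : n < q) :
    f (2 * n + 1) = 0 := by
  rcases hf with ⟨h, -, -⟩ | ⟨k, hk, rfl⟩ | ⟨m, k, hm, hmn, hk, rfl⟩
  · exact h n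
  · rw [Ue_odd, if_neg (by omega)]
  · rw [Ve_odd, if_neg (by omega)]

theorem odd_low {M : Set ℕ} {q h : ℕ} {f : ℕ →₀ ℤ} (hf : f ∈ hs (Aq M q) h) {n : ℕ}
    (hn : n < q) : f (2 * n + 1) = 0 := by
  obtain ⟨g, hg, rfl⟩ := hf
  rw [Finsupp.finsetSum_apply]
  exact sum_eq_zero fun k _ => odd_low_one (hg k) hn

/-- The sum of the digits in the odd slots. -/
noncomputable def lam : (ℕ →₀ ℤ) →+ ℤ :=
  Finsupp.liftAddHom fun i => if i % 2 = 1 then AddMonoidHom.id ℤ else 0

theorem lam_single_even (m : ℕ) (a : ℤ) : lam (Finsupp.single (2 * m) a) = 0 := by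
  unfold lam
  rw [Finsupp.liftAddHom_apply_single, if_neg (by omega)]
  rfl

theorem lam_single_odd (m : ℕ) (a : ℤ) : lam (Finsupp.single (2 * m + 1) a) = a := by
  unfold lam
  rw [Finsupp.liftAddHom_apply_single, if_pos (by omega)]
  rfl

theorem lam_zero {f : ℕ →₀ ℤ} (hf : ∀ n, f (2 * n + 1) = 0) : lam f = 0 := by
  unfold lam
  rw [Finsupp.liftAddHom_apply, Finsupp.sum]
  refine sum_eq_zero fun i _ => ?_
  split_ifs with h
  · have : i = 2 * (i / 2) + 1 := by omega
    rw [this, hf]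
    rfl
  · rfl

theorem step_one {M : Set ℕ} (hM : ∀ m ∈ M, 2 ≤ m) {q : ℕ} {f : ℕ →₀ ℤ} (hf : f ∈ Aq M q)
    (m : ℕ) : ∃ i j ρ β : ℕ, f (2 * m) = i * (m + 2) + j + β * (m + 1) ∧ i ≤ ρ ∧ j ≤ ρ ∧
      (ρ : ℤ) + m * β ≤ 1 - lam f := by
  rcases hf with ⟨h1, -, h⟩ | ⟨n, hn, rfl⟩ | ⟨m', n, hm, hmn, hn, rfl⟩
  · have hl := lam_zero h1
    rcases h m with h | h | h | h
    · exact ⟨0, 0, 1, 0, by rw [h]; push_cast; ring, by omega, by omega, by rw [hl]; push_cast; linarith⟩
    · exact ⟨0, 1, 1, 0, by rw [h]; push_cast; ring, by omega, by omega, by rw [hl]; push_cast; linarith⟩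
    · exact ⟨1, 0, 1, 0, by rw [h]; push_cast; ring, by omega, by omega, by rw [hl]; push_cast; linarith⟩
    · exact ⟨1, 1, 1, 0, by rw [h]; push_cast; ring, by omega, by omega, by rw [hl]; push_cast; linarith⟩
  · refine ⟨0, 0, 0, 0, by rw [Ue_even]; push_cast; ring, le_rfl, le_rfl, ?_⟩
    have : lam (Ue n) = 1 := lam_single_odd n 1
    rw [this]; push_cast; linarith
  · have hl : lam (Ve m' n) = -((m' : ℤ) - 1) := by
      unfold Ve
      rw [map_sub, lam_single_even, lam_single_odd, zero_sub]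
    by_cases hmm : m' = m
    · subst hmm
      refine ⟨0, 0, 0, 1, by rw [Ve_even, if_pos rfl]; push_cast; ring, le_rfl, le_rfl, ?_⟩
      rw [hl]; push_cast; linarith
    · refine ⟨0, 0, 0, 0, by rw [Ve_even, if_neg hmm]; push_cast; ring, le_rfl, le_rfl, ?_⟩
      have h2 : (2 : ℤ) ≤ m' := by exact_mod_cast hM m' hm
      rw [hl]; push_cast; linarith

theorem ij_exists {m h z : ℕ} (hmh : m + 1 ≤ h) (hz : z ≤ h * (m + 3)) :
    ∃ i j : ℕ, i ≤ h ∧ j ≤ h ∧ z = i * (m + 2) + j := by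
  by_cases h1 : z / (m + 2) ≤ h
  · refine ⟨z / (m + 2), z % (m + 2), h1, ?_, ?_⟩
    · have := Nat.mod_lt z (show 0 < m + 2 by omega)
      omega
    · have := Nat.div_add_mod z (m + 2)
      rw [mul_comm]
      omega
  · push Not at h1
    have h2 : h * (m + 2) ≤ z := by
      have := Nat.div_mul_le_self z (m + 2)
      have h3 : h * (m + 2) ≤ z / (m + 2) * (m + 2) := Nat.mul_le_mul_right _ h1.le
      omega
    refine ⟨h, z - h * (m + 2), le_rfl, ?_, ?_⟩
    · have : h * (m + 3) = h * (m + 2) + h := by ring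
      omega
    · omega

/-- Decomposition into `h` elements of the limit set. -/
theorem mem_hs_Ah {M : Set ℕ} {h : ℕ} {f : ℕ →₀ ℤ} (h1 : ∀ n, f (2 * n + 1) = 0)
    (h2 : ∀ m, m ∉ M → f (2 * m) = 0)
    (h3 : ∀ m : ℕ, ∃ i j : ℕ, i ≤ h ∧ j ≤ h ∧ f (2 * m) = i * (m + 2) + j) :
    f ∈ hs (Ah M) h := by
  classical
  choose I J hI hJ hf using h3
  have hz : ∀ m, f (2 * m) = 0 → I m = 0 ∧ J m = 0 := by
    intro m hm
    have h4 := hf m
    rw [hm] at h4
    have h5 : (0 : ℤ) ≤ I m := by positivity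
    have h6 : (0 : ℤ) ≤ J m := by positivity
    have h7 : (0 : ℤ) ≤ I m * (m + 2) := by positivity
    have h8 : (J m : ℤ) = 0 := by linarith
    have h9 : (I m : ℤ) * (m + 2) = 0 := by linarith
    have h10 : ((m : ℤ) + 2) ≠ 0 := by positivity
    rcases mul_eq_zero.1 h9 with h11 | h11
    · exact ⟨by exact_mod_cast h11, by exact_mod_cast h8⟩
    · exact absurd h11 h10
  set G : Fin h → ℕ → ℤ := fun k i => if i % 2 = 0 then
    ((if (k : ℕ) < I (i / 2) then ((i / 2 : ℕ) : ℤ) + 2 else 0) +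
      (if (k : ℕ) < J (i / 2) then 1 else 0)) else 0 with hG
  have hsupp : ∀ k i, G k i ≠ 0 → i ∈ f.support := by
    intro k i hne
    rw [Finsupp.mem_support_iff]
    intro h0
    apply hne
    rw [hG]
    dsimp only
    by_cases hi : i % 2 = 0
    · rw [if_pos hi]
      have h4 : i = 2 * (i / 2) := by omega
      rw [h4] at h0
      obtain ⟨h5, h6⟩ := hz _ h0
      rw [h5, h6]
      simp
    · rw [if_neg hi]
  refine ⟨fun k => Finsupp.onFinset f.support (G k) (hsupp k), fun k => ⟨?_, ?_, ?_⟩, ?_⟩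
  · intro n
    rw [Finsupp.onFinset_apply, hG]
    dsimp only
    rw [if_neg (by omega)]
  · intro m hm
    obtain ⟨h5, h6⟩ := hz m (h2 m hm)
    rw [Finsupp.onFinset_apply, hG]
    dsimp only
    rw [if_pos (by omega), show 2 * m / 2 = m by omega, h5, h6]
    simp
  · intro m
    rw [Finsupp.onFinset_apply, hG]
    dsimp only
    rw [if_pos (by omega), show 2 * m / 2 = m by omega]
    by_cases c1 : (k : ℕ) < I m
    · by_cases c2 : (k : ℕ) < J m
      · rw [if_pos c1, if_pos c2]; right; right; right; ring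
      · rw [if_pos c1, if_neg c2]; right; right; left; ring
    · by_cases c2 : (k : ℕ) < J m
      · rw [if_neg c1, if_pos c2]; right; left; ring
      · rw [if_neg c1, if_neg c2]; left; ring
  · have hcount : ∀ (a : ℕ) (x : ℤ), a ≤ h → ∑ k : Fin h, (if (k : ℕ) < a then x else 0) = a * x := by
      intro a x ha
      rw [Fin.sum_univ_eq_sum_range (fun k => if k < a then x else 0) h, ← sum_filter, sum_const]
      have : (range h).filter (fun k => k < a) = range a := by
        ext k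
        simp only [mem_filter, mem_range]
        omega
      rw [this, card_range, nsmul_eq_mul]
    ext i
    rw [Finsupp.finsetSum_apply]
    simp only [Finsupp.onFinset_apply, hG]
    by_cases hi : i % 2 = 0
    · simp only [if_pos hi]
      rw [sum_add_distrib, hcount _ _ (hI _), hcount _ _ (hJ _), mul_one]
      have h4 : i = 2 * (i / 2) := by omega
      conv_rhs => rw [h4, hf]
    · simp only [if_neg hi, sum_const_zero]
      have h4 : i = 2 * (i / 2) + 1 := by omega
      rw [h4, h1]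

/-- The main point: no new sums for `h ∉ M`. -/
theorem formal {M : Set ℕ} (hM : ∀ m ∈ M, 2 ≤ m) {q h : ℕ} (hh : h ∉ M) {f : ℕ →₀ ℤ}
    (hf : f ∈ hs (Aq M q) h) (h1 : ∀ n, f (2 * n + 1) = 0) : f ∈ hs (Ah M) h := by
  obtain ⟨g, hg, rfl⟩ := hf
  set f := ∑ k, g k with hfdef
  have hlam : ∑ k, lam (g k) = 0 := by
    rw [← map_sum]
    exact lam_zero h1
  have h2 : ∀ m, m ∉ M → f (2 * m) = 0 := by
    intro m hm
    rw [hfdef, Finsupp.finsetSum_apply]
    refine sum_eq_zero fun k _ => ?_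
    rcases hg k with ⟨-, h3, -⟩ | ⟨n, hn, h3⟩ | ⟨m', n, hm', hmn, hn, h3⟩
    · exact h3 m hm
    · rw [h3, Ue_even]
    · rw [h3, Ve_even, if_neg]
      rintro rfl
      exact hm hm'
  refine mem_hs_Ah h1 h2 fun m => ?_
  by_cases hm : m ∈ M
  swap
  · exact ⟨0, 0, Nat.zero_le _, Nat.zero_le _, by rw [h2 m hm]; push_cast; ring⟩
  choose I J ρ β he hI hJ hc using fun k => step_one hM (hg k) m
  set i := ∑ k, I k with hi
  set j := ∑ k, J k with hj
  set r := ∑ k, ρ k with hr
  set b := ∑ k, β k with hb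
  have e1 : f (2 * m) = i * (m + 2) + j + b * (m + 1) := by
    rw [hfdef, Finsupp.finsetSum_apply, sum_congr rfl fun k _ => he k, sum_add_distrib,
      sum_add_distrib, ← sum_mul, ← sum_mul, hi, hj, hb]
    push_cast
    ring
  have e2 : i ≤ r := sum_le_sum fun k _ => hI k
  have e3 : j ≤ r := sum_le_sum fun k _ => hJ k
  have e4 : r + m * b ≤ h := by
    have h3 : ∑ k, ((ρ k : ℤ) + m * β k) ≤ ∑ k, (1 - lam (g k)) := sum_le_sum fun k _ => hc k
    rw [sum_add_distrib, sum_sub_distrib, hlam, ← mul_sum, sum_const, card_univ,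
      Fintype.card_fin, nsmul_eq_mul, mul_one, sub_zero] at h3
    have h4 : ((r : ℤ) + m * b) ≤ h := by
      rw [hr, hb]
      push_cast
      exact h3
    exact_mod_cast h4
  rcases Nat.eq_zero_or_pos b with hb0 | hb0
  · refine ⟨i, j, ?_, ?_, ?_⟩
    · omega
    · omega
    · rw [e1, hb0]; push_cast; ring
  · have hmb : m ≤ m * b := Nat.le_mul_of_pos_right m hb0
    have hmh : m + 1 ≤ h := by
      rcases Nat.lt_or_ge m h with h3 | h3
      · exact h3
      · exfalso
        have : m = h := by omega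
        exact hh (this ▸ hm)
    obtain ⟨i', j', h5, h6, h7⟩ := ij_exists (m := m) (h := h) (z := i * (m + 2) + j + b * (m + 1)) hmh (by
      have a1 : i * (m + 2) ≤ r * (m + 2) := Nat.mul_le_mul_right _ e2
      have a2 : b * (m + 1) ≤ m * b * (m + 3) := by
        have h2m := hM m hm
        calc b * (m + 1) ≤ b * (m + 3) := Nat.mul_le_mul_left _ (by omega)
          _ = 1 * (b * (m + 3)) := by ring
          _ ≤ m * (b * (m + 3)) := Nat.mul_le_mul_right _ (by omega)
          _ = m * b * (m + 3) := by ring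
      have a3 : (r + m * b) * (m + 3) ≤ h * (m + 3) := Nat.mul_le_mul_right _ e4
      calc i * (m + 2) + j + b * (m + 1) ≤ r * (m + 2) + r + m * b * (m + 3) := by omega
        _ = (r + m * b) * (m + 3) := by ring
        _ ≤ h * (m + 3) := a3)
    refine ⟨i', j', h5, h6, ?_⟩
    rw [e1]
    exact_mod_cast h7

/-- The bound for the digits. -/
def bb (i : ℕ) : ℕ := (i + 4) ^ 2

theorem good_unb {G : Type v} [AddCommGroup G]
    (hU : ∀ N : ℕ, 1 ≤ N → (Set.range fun x : G => N • x).Infinite) {M : Set ℕ}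
    (hM : ∀ m ∈ M, 2 ≤ m) : Good G M := by
  classical
  obtain ⟨φ, hφ⟩ := exists_weights' hU bb
  -- decoding
  have decode : ∀ h x, x ∈ ⋂ q, hs (φ '' Aq M q) h → ∃ q f, f ∈ hs (Aq M q) h ∧ φ f = x ∧
      ∀ n, f (2 * n + 1) = 0 := by
    intro h x hx
    rw [Set.mem_iInter] at hx
    have hx' : ∀ q, ∃ f, f ∈ hs (Aq M q) h ∧ φ f = x := by
      intro q
      have h1 := hx q
      rw [hs_image] at h1
      exact h1
    obtain ⟨f0, hf0, hf0x⟩ := hx' 0
    obtain ⟨J, hJ⟩ : ∃ J : ℕ, ∀ i, J ≤ i → f0 i = 0 := by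
      refine ⟨f0.support.sup id + 1, fun i hi => ?_⟩
      by_contra hne
      have := le_sup (f := id) (Finsupp.mem_support_iff.2 hne)
      simp only [id] at this
      omega
    set K := J + 2 * h with hK
    obtain ⟨f, hf, hfx⟩ := hx' K
    refine ⟨K, f, hf, hfx, fun n => ?_⟩
    rcases Nat.lt_or_ge n K with hn | hn
    · exact odd_low hf hn
    · have h1 := hφ (f - f0) (by rw [map_sub, hfx, hf0x, sub_self]) K (by
        intro i hi j hj
        rw [Finsupp.sub_apply]
        have h2 := bound_hs hM hf j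
        have h3 := bound_hs hM hf0 j
        have h4 : |f j - f0 j| ≤ |f j| + |f0 j| := abs_sub _ _
        have h5 : (j : ℤ) ≤ i := by exact_mod_cast hj
        have h6 : (2 * h : ℤ) ≤ i := by
          have : 2 * h ≤ i := by omega
          exact_mod_cast this
        have h7 : (0 : ℤ) ≤ h := by positivity
        have h8 : (0 : ℤ) ≤ j := by positivity
        unfold bb
        push_cast
        nlinarith [mul_nonneg h7 h8]) (2 * n + 1) (by omega)
      rw [Finsupp.sub_apply, hJ (2 * n + 1) (by omega), sub_zero] at h1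
      exact h1
  have one_eq : ∀ (B : Set G), hs B 1 = B := by
    intro B
    ext x
    constructor
    · rintro ⟨f, hf, rfl⟩
      rw [Fin.sum_univ_one]
      exact hf 0
    · intro hx
      exact ⟨fun _ => x, fun _ => hx, by rw [Fin.sum_univ_one]⟩
  have one_eq' : ∀ (B : Set (ℕ →₀ ℤ)), hs B 1 = B := by
    intro B
    ext x
    constructor
    · rintro ⟨f, hf, rfl⟩
      rw [Fin.sum_univ_one]
      exact hf 0
    · intro hx
      exact ⟨fun _ => x, fun _ => hx, by rw [Fin.sum_univ_one]⟩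
  have hinter : (⋂ q, φ '' Aq M q) = φ '' Ah M := by
    apply Set.Subset.antisymm
    · intro x hx
      have hx1 : x ∈ ⋂ q, hs (φ '' Aq M q) 1 := by
        simp only [one_eq]
        exact hx
      obtain ⟨q, f, hf, rfl, h1⟩ := decode 1 x hx1
      have h2 := formal hM (fun hc => by have := hM 1 hc; omega) hf h1
      rw [one_eq'] at h2
      exact ⟨f, h2, rfl⟩
    · rintro _ ⟨f, hf, rfl⟩
      exact Set.mem_iInter.2 fun q => ⟨f, Ah_sub M q hf, rfl⟩
  refine ⟨fun q => φ '' Aq M q, ?_, fun h hpos => ?_⟩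
  · -- strictly decreasing
    refine strictAnti_nat_of_succ_lt fun q => ⟨Set.image_mono (Aq_anti (Nat.le_succ q)), fun hc => ?_⟩
    obtain ⟨f, hf, hfu⟩ := hc ⟨Ue q, Or.inr (Or.inl ⟨q, le_rfl, rfl⟩), rfl⟩
    have h1 := hφ (f - Ue q) (by rw [map_sub, hfu, sub_self]) 0 (by
      intro i _ j hj
      rw [Finsupp.sub_apply]
      have h2 := bound_one hM hf j
      have h3 := bound_one hM (show Ue q ∈ Aq M q from Or.inr (Or.inl ⟨q, le_rfl, rfl⟩)) j
      have h4 : |f j - Ue q j| ≤ |f j| + |Ue q j| := abs_sub _ _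
      have h5 : (j : ℤ) ≤ i := by exact_mod_cast hj
      have h8 : (0 : ℤ) ≤ j := by positivity
      unfold bb
      push_cast
      nlinarith) (2 * q + 1) (Nat.zero_le _)
    rw [Finsupp.sub_apply, odd_low_one hf (Nat.lt_succ_self q), Ue_odd, if_pos rfl] at h1
    norm_num at h1
  · rw [hinter]
    constructor
    · -- `h ∈ M` is missing
      intro heq hhM
      have h2h := hM h hhM
      have hmem : φ (Finsupp.single (2 * h) ((h : ℤ) + 1)) ∈ ⋂ q, hs (φ '' Aq M q) h := by
        refine Set.mem_iInter.2 fun q => ?_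
        rw [hs_image]
        refine ⟨_, ?_, rfl⟩
        obtain ⟨k, rfl⟩ : ∃ k, h = k + 1 := ⟨h - 1, by omega⟩
        set n := max q (k + 1) with hn
        refine ⟨Fin.cons (Ve (k + 1) n) (fun _ => Ue n), ?_, ?_⟩
        · intro i
          refine Fin.cases ?_ (fun i => ?_) i
          · rw [Fin.cons_zero]
            exact Or.inr (Or.inr ⟨k + 1, n, hhM, le_max_right _ _, le_max_left _ _, rfl⟩)
          · rw [Fin.cons_succ]
            exact Or.inr (Or.inl ⟨n, le_max_left _ _, rfl⟩)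
        · rw [Fin.sum_univ_succ, Fin.cons_zero]
          simp only [Fin.cons_succ]
          rw [sum_const, card_univ, Fintype.card_fin]
          unfold Ve Ue
          rw [Finsupp.smul_single, nsmul_eq_mul, mul_one]
          have e : (((k + 1 : ℕ) : ℤ) - 1) = k := by push_cast; ring
          rw [e, sub_add_cancel]
      rw [← heq, hs_image] at hmem
      obtain ⟨f, hfA, hfx⟩ := hmem
      have hfA' := hs_mono (Ah_sub M 0) h hfA
      have h1 := hφ (f - Finsupp.single (2 * h) ((h : ℤ) + 1)) (by rw [map_sub, hfx, sub_self])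
        (2 * h) (by
          intro i hi j hj
          rw [Finsupp.sub_apply]
          have h2 := bound_hs hM hfA' j
          have h3 : |(Finsupp.single (2 * h) ((h : ℤ) + 1)) j| ≤ h + 1 := by
            rw [Finsupp.single_apply]
            split_ifs
            · rw [abs_of_nonneg (by positivity)]
            · rw [abs_zero]; positivity
          have h4 := abs_sub (f j) ((Finsupp.single (2 * h) ((h : ℤ) + 1)) j)
          have h5 : (j : ℤ) ≤ i := by exact_mod_cast hj
          have h6 : (2 * h : ℤ) ≤ i := by exact_mod_cast hi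
          have h7 : (0 : ℤ) ≤ h := by positivity
          have h8 : (0 : ℤ) ≤ j := by positivity
          unfold bb
          push_cast
          nlinarith [mul_nonneg h7 h8]) (2 * h) le_rfl
      rw [Finsupp.sub_apply, Finsupp.single_eq_same] at h1
      obtain ⟨g, hg, hgf⟩ := hfA
      have hdig : ∀ k, ∃ i j : ℕ, i ≤ 1 ∧ j ≤ 1 ∧ g k (2 * h) = i * (h + 2) + j := by
        intro k
        rcases (hg k).2.2 h with h3 | h3 | h3 | h3
        · exact ⟨0, 0, by omega, by omega, by rw [h3]; push_cast; ring⟩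
        · exact ⟨0, 1, by omega, by omega, by rw [h3]; push_cast; ring⟩
        · exact ⟨1, 0, by omega, by omega, by rw [h3]; push_cast; ring⟩
        · exact ⟨1, 1, by omega, by omega, by rw [h3]; push_cast; ring⟩
      choose I J hI hJ he using hdig
      have e1 : f (2 * h) = ((∑ k, I k : ℕ) : ℤ) * (h + 2) + ((∑ k, J k : ℕ) : ℤ) := by
        rw [← hgf, Finsupp.finsetSum_apply, sum_congr rfl fun k _ => he k, sum_add_distrib,
          ← sum_mul]
        push_cast
        ring
      have e2 : ∑ k, J k ≤ h := by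
        calc ∑ k, J k ≤ ∑ _k : Fin h, 1 := sum_le_sum fun k _ => hJ k
          _ = h := by rw [sum_const, card_univ, Fintype.card_fin, smul_eq_mul, mul_one]
      have e3 : (∑ k, I k) * (h + 2) + ∑ k, J k = h + 1 := by
        have h3 : ((∑ k, I k : ℕ) : ℤ) * (h + 2) + ((∑ k, J k : ℕ) : ℤ) = h + 1 := by
          linarith
        exact_mod_cast h3
      rcases Nat.eq_zero_or_pos (∑ k, I k) with h3 | h3
      · rw [h3] at e3
        omega
      · have h4 : h + 2 ≤ (∑ k, I k) * (h + 2) := Nat.le_mul_of_pos_left _ h3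
        omega
    · intro hhM
      apply Set.Subset.antisymm
      · intro x hx
        refine Set.mem_iInter.2 fun q => ?_
        exact hs_mono (Set.image_mono (Ah_sub M q)) h hx
      · intro x hx
        obtain ⟨q, f, hf, rfl, h1⟩ := decode h x hx
        rw [hs_image]
        exact ⟨f, formal hM hhM hf h1, rfl⟩

end Pool.Agent.H94.PI
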